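import Mathlib
import Pool.Agent.W422.PI.Stm

set_option autoImplicit false

/-! Normal form of alternating matrices over a field. -/

namespace Pool.Agent.W790.PI

open Matrix Pool.Agent.W422.PI

variable {K : Type} [Field K] {ι : Type}

theorem entry {r : ℕ} (Q : Matrix ι (Fin r ⊕ Fin r) K) (i j : ι) :
    (Q * Jm r K * Qᵀ) i j =
      ∑ k : Fin r, (Q i (Sum.inl k) * Q j (Sum.inr k) - Q i (Sum.inr k) * Q j (Sum.inl k)) := by
  have h1 : ∀ k, (Q * Jm r K) i (Sum.inl k) = - Q i (Sum.inr k) := by
    intro k
    rw [Matrix.mul_apply, Fintype.sum_sum_type]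
    simp [Jm, Matrix.neg_apply, Matrix.one_apply]
  have h2 : ∀ k, (Q * Jm r K) i (Sum.inr k) = Q i (Sum.inl k) := by
    intro k
    rw [Matrix.mul_apply, Fintype.sum_sum_type]
    simp [Jm, Matrix.one_apply]
  rw [Matrix.mul_apply, Fintype.sum_sum_type, ← Finset.sum_add_distrib]
  refine Finset.sum_congr rfl fun k _ => ?_
  rw [h1, h2, Matrix.transpose_apply, Matrix.transpose_apply]
  ring

variable [Fintype ι] [DecidableEq ι]

open scoped Classical in
/-- the data of a normal form, column by column -/
theorem core : ∀ (n : ℕ) (A : Matrix ι ι K), Alt A →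
    (Finset.univ.filter fun i => ∃ j, A i j ≠ 0).card ≤ n →
    ∃ (r : ℕ) (P S p s : Fin r → ι → K),
      (∀ i j, A i j = ∑ k, (P k i * S k j - S k i * P k j)) ∧
      (∀ k m, p k ⬝ᵥ P m = if k = m then 1 else 0) ∧ (∀ k m, p k ⬝ᵥ S m = 0) ∧
      (∀ k m, s k ⬝ᵥ P m = 0) ∧ (∀ k m, s k ⬝ᵥ S m = if k = m then 1 else 0) := by
  intro n
  induction n with
  | zero =>
    intro A hA hc
    refine ⟨0, fun _ _ => 0, fun _ _ => 0, fun _ _ => 0, fun _ _ => 0, ?_, ?_, ?_, ?_, ?_⟩
    · intro i j
      rw [Finset.sum_of_isEmpty]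
      by_contra hij
      have : i ∈ Finset.univ.filter fun i => ∃ j, A i j ≠ 0 := by
        rw [Finset.mem_filter]; exact ⟨Finset.mem_univ _, j, hij⟩
      have h2 := Finset.card_pos.mpr ⟨i, this⟩
      omega
    all_goals intro k; exact k.elim0
  | succ n ih =>
    intro A hA hc
    by_cases h0 : ∀ i j, A i j = 0
    · refine ⟨0, fun _ _ => 0, fun _ _ => 0, fun _ _ => 0, fun _ _ => 0, ?_, ?_, ?_, ?_, ?_⟩
      · intro i j
        rw [Finset.sum_of_isEmpty, h0]
      all_goals intro k; exact k.elim0
    push Not at h0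
    obtain ⟨i0, j0, hc0⟩ := h0
    obtain ⟨hAt, hAd⟩ := hA
    have hanti : ∀ i j, A j i = - A i j := by
      intro i j
      have := congrFun (congrFun hAt i) j
      rwa [Matrix.transpose_apply, Matrix.neg_apply] at this
    set c : K := A i0 j0 with hcdef
    set a : ι → K := fun i => A i i0 with ha
    set b : ι → K := fun i => A i j0 with hb
    have ha0 : a i0 = 0 := hAd i0
    have haj : a j0 = -c := hanti i0 j0
    have hb0 : b i0 = c := rfl
    have hbj : b j0 = 0 := hAd j0
    set A' : Matrix ι ι K := Matrix.of fun i j => A i j - c⁻¹ * (a i * b j - b i * a j) with hA'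
    have hA'e : ∀ i j, A' i j = A i j - c⁻¹ * (a i * b j - b i * a j) := fun i j => rfl
    have hA'alt : Alt A' := by
      constructor
      · ext i j
        rw [Matrix.transpose_apply, Matrix.neg_apply, hA'e, hA'e, hanti i j]
        ring
      · intro i
        rw [hA'e, hAd]
        ring
    have hcol0 : ∀ i, A' i i0 = 0 := by
      intro i
      rw [hA'e, ha0, hb0]
      simp only [ha]
      field_simp
      ring
    have hcolj : ∀ i, A' i j0 = 0 := by
      intro i
      rw [hA'e, haj, hbj]
      simp only [hb]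
      field_simp
      ring
    have hrow0 : ∀ j, A' i0 j = 0 := by
      intro j
      have := congrFun (congrFun hA'alt.1 i0) j
      rw [Matrix.transpose_apply, Matrix.neg_apply, hcol0] at this
      exact neg_eq_zero.mp this.symm
    have hrowj : ∀ j, A' j0 j = 0 := by
      intro j
      have := congrFun (congrFun hA'alt.1 j0) j
      rw [Matrix.transpose_apply, Matrix.neg_apply, hcolj] at this
      exact neg_eq_zero.mp this.symm
    have hlt : (Finset.univ.filter fun i => ∃ j, A' i j ≠ 0).card ≤ n := by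
      have hss : (Finset.univ.filter fun i => ∃ j, A' i j ≠ 0) ⊂
          (Finset.univ.filter fun i => ∃ j, A i j ≠ 0) := by
        rw [Finset.ssubset_iff_of_subset]
        · refine ⟨i0, ?_, ?_⟩
          · rw [Finset.mem_filter]; exact ⟨Finset.mem_univ _, j0, hc0⟩
          · rw [Finset.mem_filter]
            rintro ⟨_, j, hj⟩
            exact hj (hrow0 j)
        · intro i hi
          rw [Finset.mem_filter] at hi ⊢
          refine ⟨Finset.mem_univ _, ?_⟩
          by_contra hno
          push Not at hno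
          obtain ⟨_, j, hj⟩ := hi
          apply hj
          rw [hA'e]
          simp only [ha, hb, hno]
          ring
      have := Finset.card_lt_card hss
      omega
    obtain ⟨r, P, S, p, s, h1, h2, h3, h4, h5⟩ := ih A' hA'alt hlt
    -- the rows `i0`, `j0` of `P`, `S` vanish
    have hS : ∀ i k, A' i ⬝ᵥ p k = - S k i := by
      intro i k
      have : A' i ⬝ᵥ p k = ∑ m, (P m i * (p k ⬝ᵥ S m) - S m i * (p k ⬝ᵥ P m)) := by
        simp only [dotProduct]
        simp only [h1, Finset.sum_mul, Finset.mul_sum]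
        rw [Finset.sum_comm]
        refine Finset.sum_congr rfl fun m _ => ?_
        rw [← Finset.sum_sub_distrib]
        refine Finset.sum_congr rfl fun j _ => ?_
        ring
      rw [this]
      simp [h2, h3]
    have hP : ∀ i k, A' i ⬝ᵥ s k = P k i := by
      intro i k
      have : A' i ⬝ᵥ s k = ∑ m, (P m i * (s k ⬝ᵥ S m) - S m i * (s k ⬝ᵥ P m)) := by
        simp only [dotProduct]
        simp only [h1, Finset.sum_mul, Finset.mul_sum]
        rw [Finset.sum_comm]
        refine Finset.sum_congr rfl fun m _ => ?_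
        rw [← Finset.sum_sub_distrib]
        refine Finset.sum_congr rfl fun j _ => ?_
        ring
      rw [this]
      simp [h4, h5]
    have hz0 : A' i0 = 0 := funext hrow0
    have hzj : A' j0 = 0 := funext hrowj
    have hP0 : ∀ k, P k i0 = 0 := fun k => by rw [← hP, hz0, zero_dotProduct]
    have hPj : ∀ k, P k j0 = 0 := fun k => by rw [← hP, hzj, zero_dotProduct]
    have hS0 : ∀ k, S k i0 = 0 := fun k => by
      have := hS i0 k
      rw [hz0, zero_dotProduct] at this
      exact neg_eq_zero.mp this.symm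
    have hSj : ∀ k, S k j0 = 0 := fun k => by
      have := hS j0 k
      rw [hzj, zero_dotProduct] at this
      exact neg_eq_zero.mp this.symm
    -- new functionals
    set e1 : ι → K := Pi.single j0 (-1) with he1
    set e2 : ι → K := Pi.single i0 c⁻¹ with he2
    have e1v : ∀ v : ι → K, e1 ⬝ᵥ v = - v j0 := by
      intro v; rw [he1, single_dotProduct]; ring
    have e2v : ∀ v : ι → K, e2 ⬝ᵥ v = c⁻¹ * v i0 := by
      intro v; rw [he2, single_dotProduct]
    set a' : ι → K := fun i => c⁻¹ * a i with ha'
    have ha'0 : a' i0 = 0 := by simp only [ha', ha0, mul_zero]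
    have ha'j : a' j0 = -1 := by simp only [ha', haj]; field_simp
    refine ⟨r + 1, Fin.cons a' P, Fin.cons b S,
      Fin.cons e1 (fun k => p k - (p k ⬝ᵥ a') • e1 - (p k ⬝ᵥ b) • e2),
      Fin.cons e2 (fun k => s k - (s k ⬝ᵥ a') • e1 - (s k ⬝ᵥ b) • e2), ?_, ?_, ?_, ?_, ?_⟩
    · intro i j
      rw [Fin.sum_univ_succ]
      simp only [Fin.cons_zero, Fin.cons_succ]
      rw [← h1, hA'e]
      simp only [ha']
      ring
    · intro k m
      refine Fin.cases ?_ (fun k => ?_) k
      · refine Fin.cases ?_ (fun m => ?_) m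
        · simp [e1v, ha'j]
        · simp [e1v, hPj, (Fin.succ_ne_zero m).symm]
      · refine Fin.cases ?_ (fun m => ?_) m
        · simp [sub_dotProduct, e1v, e2v, ha'j, ha'0]
        · simp [sub_dotProduct, e1v, e2v, hPj, hP0, h2]
    · intro k m
      refine Fin.cases ?_ (fun k => ?_) k
      · refine Fin.cases ?_ (fun m => ?_) m
        · simp [e1v, hbj]
        · simp [e1v, hSj]
      · refine Fin.cases ?_ (fun m => ?_) m
        · simp [sub_dotProduct, e1v, e2v, hbj, hb0, hc0]
        · simp [sub_dotProduct, e1v, e2v, hSj, hS0, h3]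
    · intro k m
      refine Fin.cases ?_ (fun k => ?_) k
      · refine Fin.cases ?_ (fun m => ?_) m
        · simp [e2v, ha'0]
        · simp [e2v, hP0]
      · refine Fin.cases ?_ (fun m => ?_) m
        · simp [sub_dotProduct, e1v, e2v, ha'j, ha'0]
        · simp [sub_dotProduct, e1v, e2v, hPj, hP0, h4]
    · intro k m
      refine Fin.cases ?_ (fun k => ?_) k
      · refine Fin.cases ?_ (fun m => ?_) m
        · simp [e2v, hb0, hc0]
        · simp [e2v, hS0, (Fin.succ_ne_zero m).symm]
      · refine Fin.cases ?_ (fun m => ?_) m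
        · simp [sub_dotProduct, e1v, e2v, hbj, hb0, hc0]
        · simp [sub_dotProduct, e1v, e2v, hSj, hS0, h5]

theorem main : Pool.Agent.W422.PI.NFK := by
  intro K _ ι _ _ A hA
  obtain ⟨r, P, S, p, s, h1, h2, h3, h4, h5⟩ := core _ A hA le_rfl
  let Q : Matrix ι (Fin r ⊕ Fin r) K := Matrix.of fun i x => Sum.elim (fun k => P k i) (fun k => S k i) x
  let L : Matrix (Fin r ⊕ Fin r) ι K := Matrix.of fun x i => Sum.elim (fun k => p k i) (fun k => s k i) x
  have hAQ : A = Q * Jm r K * Qᵀ := by
    ext i j
    rw [entry, h1]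
    rfl
  have hLQ : L * Q = 1 := by
    ext x y
    rw [Matrix.mul_apply]
    rcases x with k | k <;> rcases y with m | m
    · have := h2 k m
      simp only [dotProduct] at this
      simp only [L, Q, Matrix.of_apply, Sum.elim_inl]
      rw [this, Matrix.one_apply]
      simp
    · have := h3 k m
      simp only [dotProduct] at this
      simp only [L, Q, Matrix.of_apply, Sum.elim_inl, Sum.elim_inr]
      rw [this, Matrix.one_apply]
      simp
    · have := h4 k m
      simp only [dotProduct] at this
      simp only [L, Q, Matrix.of_apply, Sum.elim_inl, Sum.elim_inr]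
      rw [this, Matrix.one_apply]
      simp
    · have := h5 k m
      simp only [dotProduct] at this
      simp only [L, Q, Matrix.of_apply, Sum.elim_inr]
      rw [this, Matrix.one_apply]
      simp
  refine ⟨r, Q, ?_, hAQ⟩
  have hJJ : Jm r K * (-Jm r K) = 1 := by
    simp only [Jm]
    rw [← Matrix.fromBlocks_one, Matrix.fromBlocks_neg, Matrix.fromBlocks_multiply]
    simp
  have hJrank : (Jm r K).rank = 2 * r := by
    have h : IsUnit (Jm r K) := IsUnit.of_mul_eq_one _ hJJ
    rw [Matrix.rank_of_isUnit _ h]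
    simp
    ring
  apply le_antisymm
  · rw [hAQ]
    calc (Q * Jm r K * Qᵀ).rank ≤ (Q * Jm r K).rank := Matrix.rank_mul_le_left _ _
      _ ≤ (Jm r K).rank := Matrix.rank_mul_le_right _ _
      _ = 2 * r := hJrank
  · have hLA : L * A * Lᵀ = Jm r K := by
      rw [hAQ]
      have hQL : Qᵀ * Lᵀ = 1 := by rw [← Matrix.transpose_mul, hLQ, Matrix.transpose_one]
      calc L * (Q * Jm r K * Qᵀ) * Lᵀ = (L * Q) * Jm r K * (Qᵀ * Lᵀ) := by
            simp only [Matrix.mul_assoc]
        _ = Jm r K := by rw [hLQ, hQL, Matrix.one_mul, Matrix.mul_one]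
    rw [← hJrank, ← hLA]
    calc (L * A * Lᵀ).rank ≤ (L * A).rank := Matrix.rank_mul_le_left _ _
      _ ≤ A.rank := Matrix.rank_mul_le_right _ _

end Pool.Agent.W790.PI
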